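import Mathlib.Algebra.BigOperators.NatAntidiagonal
import Mathlib.Algebra.Order.BigOperators.Group.Finset
import Mathlib.Algebra.Order.Archimedean.Real.Basic
import Mathlib.Analysis.SpecialFunctions.Pow.Real
import Mathlib.Algebra.Ring.Parity
import Mathlib.Tactic.Linarith
import Mathlib.Tactic.Positivity
import Mathlib.Tactic.Ring
import Mathlib.Tactic.Push
import Mathlib.Tactic.FieldSimp

/-!
# L²-Betti numbers of Poincare duality groups: powers and products with surface groups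
-/

set_option autoImplicit false

universe u

namespace Pool.Agent.TH613.SG

/-- A class of Poincare duality groups which is closed under products and contains the fundamental
groups of closed oriented surfaces of positive genus, with the formal properties of the dimension
and of the L²-Betti numbers. -/
structure DualityGroups where
  /-- the groups `Γ` -/
  Grp : Type u
  /-- the dimension `n` of the Poincare duality group `Γ` -/
  dim : Grp → ℕ
  /-- the L²-Betti numbers `b_i(Γ)` -/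
  b : Grp → ℕ → ℝ
  /-- the product `Γ × Δ` -/
  prod : Grp → Grp → Grp
  /-- the fundamental group of the closed oriented surface of genus `g + 1` -/
  surf : ℕ → Grp
  /-- `dim (Γ × Δ) = dim Γ + dim Δ` -/
  dim_prod : ∀ Γ Δ, dim (prod Γ Δ) = dim Γ + dim Δ
  /-- L²-Betti numbers are nonnegative -/
  b_nonneg : ∀ Γ i, 0 ≤ b Γ i
  /-- the Künneth formula -/
  kunneth : ∀ Γ Δ i, b (prod Γ Δ) i = ∑ p ∈ Finset.antidiagonal i, b Γ p.1 * b Δ p.2
  /-- surface groups have dimension 2 -/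
  dim_surf : ∀ g, dim (surf g) = 2
  /-- the first L²-Betti number of a surface group of genus `g + 1` is `2 g` -/
  b_surf : ∀ g : ℕ, b (surf g) 1 = 2 * (g : ℝ)

variable (T : DualityGroups.{u})

/-- A size of groups which grows at most linearly with the genus when `Γ` is multiplied by a
surface group: the least total number of generators of a finite projective resolution of the
trivial module (it is submultiplicative, and at most `2 g + 4` for a surface group of genus
`g + 1`). -/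
structure Size where
  /-- the size -/
  size : T.Grp → ℝ
  /-- sizes are nonnegative -/
  nonneg : ∀ Γ, 0 ≤ size Γ
  /-- linear growth in the genus -/
  linear : ∀ Γ, ∃ K : ℝ, ∀ g : ℕ, size (T.prod Γ (T.surf g)) ≤ K * ((g : ℝ) + 1)

variable {T}

theorem mul_le_b_prod (Γ Δ : T.Grp) (i j : ℕ) : T.b Γ i * T.b Δ j ≤ T.b (T.prod Γ Δ) (i + j) := by
  rw [T.kunneth]
  exact Finset.single_le_sum
    (f := fun p : ℕ × ℕ => T.b Γ p.1 * T.b Δ p.2)
    (fun p _ => mul_nonneg (T.b_nonneg _ _) (T.b_nonneg _ _))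
    (Finset.mem_antidiagonal.mpr (rfl : ((i, j) : ℕ × ℕ).1 + ((i, j) : ℕ × ℕ).2 = i + j))

theorem b_prod_pos {Γ Δ : T.Grp} {i j : ℕ} (hi : 0 < T.b Γ i) (hj : 0 < T.b Δ j) :
    0 < T.b (T.prod Γ Δ) (i + j) :=
  lt_of_lt_of_le (mul_pos hi hj) (mul_le_b_prod Γ Δ i j)

/-- from `Γ` to `Γ × Γ^m` and `Γ × Σ^k`: for all `m ≥ 1`, `k` there is a group of dimension
`m dim Γ + 2 k` with nonzero L²-Betti number in degree `m i + k` -/
theorem exists_pow {Γ : T.Grp} {i : ℕ} (hi : 0 < T.b Γ i) (m k : ℕ) :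
    ∃ Δ : T.Grp, T.dim Δ = (m + 1) * T.dim Γ + 2 * k ∧ 0 < T.b Δ ((m + 1) * i + k) := by
  induction m with
  | zero =>
    induction k with
    | zero => exact ⟨Γ, by ring, by simpa using hi⟩
    | succ k ih =>
      obtain ⟨Δ, h1, h2⟩ := ih
      refine ⟨T.prod Δ (T.surf 1), ?_, ?_⟩
      · rw [T.dim_prod, h1, T.dim_surf]; ring
      · exact b_prod_pos (j := 1) h2 (by rw [T.b_surf]; norm_num)
  | succ m ih =>
    obtain ⟨Δ, h1, h2⟩ := ih
    refine ⟨T.prod Δ Γ, ?_, ?_⟩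
    · rw [T.dim_prod, h1]; ring
    · have h := b_prod_pos h2 hi
      have e : (m + 1) * i + k + i = (m + 1 + 1) * i + k := by ring
      rwa [e] at h

/-- a sublinear bound of one L²-Betti number in dimension `n + 2`, degree `i + 1`, gives its
vanishing in dimension `n`, degree `i` -/
theorem zero_of_sublinear (s : Size T) (n i : ℕ)
    (h : ∀ δ : ℝ, 0 < δ → ∃ C : ℝ, ∀ Γ : T.Grp, T.dim Γ = n + 2 →
      T.b Γ (i + 1) ≤ δ * s.size Γ + C)
    (Γ : T.Grp) (hn : T.dim Γ = n) : T.b Γ i = 0 := by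
  by_contra hne
  have hpos : 0 < T.b Γ i := lt_of_le_of_ne (T.b_nonneg _ _) (Ne.symm hne)
  obtain ⟨K, hK⟩ := s.linear Γ
  have hKpos : 0 < |K| + 1 := by positivity
  obtain ⟨C, hC⟩ := h (T.b Γ i / (|K| + 1)) (by positivity)
  obtain ⟨g, hg⟩ := exists_nat_gt ((T.b Γ i + C) / T.b Γ i)
  have h1 := hC (T.prod Γ (T.surf g)) (by rw [T.dim_prod, T.dim_surf, hn])
  have h2 : T.b Γ i * (2 * (g : ℝ)) ≤ T.b (T.prod Γ (T.surf g)) (i + 1) := by
    have := mul_le_b_prod Γ (T.surf g) i 1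
    rwa [T.b_surf] at this
  have h3 : T.b Γ i / (|K| + 1) * s.size (T.prod Γ (T.surf g)) ≤ T.b Γ i * ((g : ℝ) + 1) := by
    have h4 := hK g
    have h5 : K * ((g : ℝ) + 1) ≤ (|K| + 1) * ((g : ℝ) + 1) := by
      apply mul_le_mul_of_nonneg_right _ (by positivity)
      linarith [le_abs_self K]
    rw [div_mul_eq_mul_div, div_le_iff₀ hKpos, mul_assoc]
    apply mul_le_mul_of_nonneg_left _ hpos.le
    linarith
  have h6 : T.b Γ i + C < g * T.b Γ i := by
    rwa [div_lt_iff₀ hpos] at hg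
  nlinarith

/-- The equivalence. -/
theorem main (s : Size T) :
    (∀ (Γ : T.Grp) (i : ℕ), 2 * i ≠ T.dim Γ → T.b Γ i = 0) ↔
      ∀ ε : ℝ, 0 < ε → ∀ N : ℕ, ∃ n : ℕ, N ≤ n ∧ Even n ∧ ∀ i : ℕ,
        ε * (n : ℝ) ≤ |2 * (i : ℝ) - (n : ℝ)| → ∀ δ : ℝ, 0 < δ → ∃ C : ℝ, ∀ Γ : T.Grp,
          T.dim Γ = n → T.b Γ i ≤ δ * s.size Γ + C := by
  constructor
  · intro h ε hε N
    refine ⟨2 * (N + 1), by omega, even_two_mul _, ?_⟩
    intro i hi δ hδ
    refine ⟨0, fun Γ hΓ => ?_⟩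
    have hne : 2 * i ≠ T.dim Γ := by
      intro he
      rw [hΓ] at he
      have h0 : 2 * (i : ℝ) - ((2 * (N + 1) : ℕ) : ℝ) = 0 := by
        rw [sub_eq_zero]; exact_mod_cast he
      rw [h0, abs_zero] at hi
      have : (0 : ℝ) < ε * ((2 * (N + 1) : ℕ) : ℝ) := by positivity
      linarith
    rw [h Γ i hne]
    have := mul_nonneg hδ.le (s.nonneg Γ)
    linarith
  · intro h Γ i hne
    by_contra hb
    have hpos : 0 < T.b Γ i := lt_of_le_of_ne (T.b_nonneg _ _) (Ne.symm hb)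
    set d := T.dim Γ with hd
    obtain ⟨n, hn, hev, H⟩ := h (1 / (2 * ((d : ℝ) + 1))) (by positivity) (4 * (d + 1))
    obtain ⟨t, ht⟩ := hev
    -- `q = ⌊t / (d + 1)⌋`, `m = 2 q` factors `Γ`, and `k = t - d q` surfaces
    set q := t / (d + 1) with hq
    have hq1 : q * (d + 1) ≤ t := Nat.div_mul_le_self t (d + 1)
    have hq2 : t < (q + 1) * (d + 1) := by
      rw [hq, mul_comm]; exact Nat.lt_mul_div_succ t (Nat.succ_pos d)
    have hqpos : 2 ≤ q := by
      rw [hq, Nat.le_div_iff_mul_le (Nat.succ_pos d)]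
      omega
    obtain ⟨r, hr⟩ : ∃ r, t = q * d + r + 1 := by
      have : q * d + 1 ≤ t := by nlinarith
      exact ⟨t - (q * d + 1), by omega⟩
    obtain ⟨m, hm⟩ : ∃ m, 2 * q = m + 1 := ⟨2 * q - 1, by omega⟩
    obtain ⟨Δ, hΔ1, hΔ2⟩ := exists_pow hpos m r
    rw [← hm] at hΔ1 hΔ2
    have hdim : n = T.dim Δ + 2 := by
      rw [hΔ1, ht, hr, ← hd]; ring
    have hcond : 1 / (2 * ((d : ℝ) + 1)) * (n : ℝ) ≤
        |2 * (((2 * q * i + r + 1 : ℕ)) : ℝ) - (n : ℝ)| := by
      have hnr : (n : ℝ) = 2 * ((q : ℝ) * d + r + 1) := by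
        rw [ht, hr]; push_cast; ring
      have e1 : 2 * (((2 * q * i + r + 1 : ℕ)) : ℝ) - (n : ℝ) = (2 * q) * (2 * (i : ℝ) - d) := by
        rw [hnr]; push_cast; ring
      have h1 : (1 : ℝ) ≤ |2 * (i : ℝ) - d| := by
        have hz : (2 * (i : ℤ) - d) ≠ 0 := by
          intro h0
          apply hne
          omega
        have := Int.one_le_abs hz
        exact_mod_cast this
      rw [e1, abs_mul, abs_of_nonneg (by positivity : (0 : ℝ) ≤ 2 * q)]
      have h2 : (n : ℝ) ≤ 2 * (((q : ℝ) + 1) * ((d : ℝ) + 1)) := by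
        have h3 : (t : ℝ) ≤ ((q : ℝ) + 1) * ((d : ℝ) + 1) := by exact_mod_cast hq2.le
        have h4 : (n : ℝ) = 2 * (t : ℝ) := by rw [ht]; push_cast; ring
        rw [h4]; linarith
      have h5 : (2 : ℝ) ≤ q := by exact_mod_cast hqpos
      calc 1 / (2 * ((d : ℝ) + 1)) * (n : ℝ)
          ≤ 1 / (2 * ((d : ℝ) + 1)) * (2 * (((q : ℝ) + 1) * ((d : ℝ) + 1))) :=
            mul_le_mul_of_nonneg_left h2 (by positivity)
        _ = (q : ℝ) + 1 := by field_simp
        _ ≤ (2 * q) * 1 := by linarith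
        _ ≤ (2 * q) * |2 * (i : ℝ) - d| := mul_le_mul_of_nonneg_left h1 (by positivity)
    have hz := zero_of_sublinear s (T.dim Δ) (2 * q * i + r)
      (by rw [← hdim]; exact H _ hcond) Δ rfl
    rw [hz] at hΔ2
    exact lt_irrefl _ hΔ2

end Pool.Agent.TH613.SG
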